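import Pool.Agent.RS.StmtsT

/-!
# Row PRM: the ideal generated by the polynomials of a prime ideal in fewer variables is prime
-/

set_option autoImplicit false

namespace Pool.Agent.RS.H89

open MvPolynomial

theorem prime_map_C {σ R : Type} [CommRing R] (q : Ideal R) [q.IsPrime] :
    (Ideal.map (C : R →+* MvPolynomial σ R) q).IsPrime := by
  rw [← Ideal.Quotient.isDomain_iff_prime]
  exact (quotientEquivQuotientMvPolynomial (σ := σ) q).symm.toMulEquiv.isDomain _

/-- the inclusion of the polynomials in the variables of `s` -/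
noncomputable def inc (k : Type) {Y : Type} [Field k] (s : Set Y) :
    MvPolynomial s k →+* MvPolynomial Y k :=
  (rename Subtype.val : MvPolynomial s k →ₐ[k] MvPolynomial Y k).toRingHom

theorem inc_apply (k : Type) {Y : Type} [Field k] (s : Set Y) (g : MvPolynomial s k) :
    inc k s g = rename Subtype.val g := rfl

theorem exists_equiv (k Y : Type) [Field k] (s : Set Y) :
    ∃ e : MvPolynomial Y k ≃+* MvPolynomial (sᶜ : Set Y) (MvPolynomial s k),
      (e : MvPolynomial Y k →+* MvPolynomial (sᶜ : Set Y) (MvPolynomial s k)).comp (inc k s) =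
        C := by
  classical
  let e : MvPolynomial Y k ≃ₐ[k] MvPolynomial (sᶜ : Set Y) (MvPolynomial s k) :=
    (renameEquiv k (Equiv.Set.sumCompl s).symm).trans
      ((renameEquiv k (Equiv.sumComm _ _)).trans (sumAlgEquiv k _ _))
  refine ⟨e.toRingEquiv, ?_⟩
  apply MvPolynomial.ringHom_ext
  · intro a
    simp [e, inc_apply]
  · intro i
    simp [e, inc_apply]

theorem prime_of_equiv {A B S : Type} [CommRing A] [CommRing B] [CommRing S] (r : S →+* A)
    (e : A ≃+* B) (c : S →+* B) (he : (e : A →+* B).comp r = c) (q : Ideal S)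
    (h : (q.map c).IsPrime) : (q.map r).IsPrime := by
  have h2 : (q.map r).map (e : A →+* B) = q.map c := by
    rw [Ideal.map_map, he]
  have h3 : ((q.map r).map (e : A →+* B)).IsPrime := by
    rw [h2]
    exact h
  have h4 : q.map r = ((q.map r).map (e : A →+* B)).comap (e : A →+* B) :=
    (Ideal.comap_map_of_bijective _ e.bijective).symm
  rw [h4]
  exact Ideal.comap_isPrime _ _

/-- PRM -/
theorem prm : PrmStmt := by
  intro k Y _ s p hp
  obtain ⟨e, he⟩ := exists_equiv k Y s
  have hq : (p.comap (inc k s)).IsPrime := Ideal.comap_isPrime _ _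
  have h1 : Ideal.span {g | g ∈ p ∧ g ∈ supported k s} = (p.comap (inc k s)).map (inc k s) := by
    apply le_antisymm
    · rw [Ideal.span_le]
      rintro g ⟨hg, hg2⟩
      rw [supported_eq_range_rename] at hg2
      obtain ⟨g', rfl⟩ := hg2
      exact Ideal.mem_map_of_mem (inc k s) (show inc k s g' ∈ p from hg)
    · rw [Ideal.map_le_iff_le_comap]
      intro g hg
      refine Ideal.subset_span ⟨hg, ?_⟩
      rw [supported_eq_range_rename]
      exact ⟨g, rfl⟩
  rw [h1]
  exact prime_of_equiv _ e C he _ (prime_map_C _)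

end Pool.Agent.RS.H89
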